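import Pool.Agent.helper69.DH.SpecR2

/-!
# Project d2: (MP_5823cb_al), part R: row rSLF: the three functions of the level `s` and the sliver property (helper21)
-/

set_option autoImplicit false

open Filter Topology MeasureTheory
open scoped commutatorElement

namespace Pool.Agent.helper90.DH

open Pool.Agent.helper64.D2

/-- the numerical estimate. -/
theorem rSLF_num {m0 q : ℕ} (hq : 2 ^ 40 * (m0 + 1) ≤ q) {s τ : ℕ} (h : s + 40 ≤ τ) :
    (32 : ℝ) * (2 * m0 + q * (2 ^ s / 2 ^ τ)) ≤ q / 2 ^ 27 := by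
  have hq' : (2 : ℝ) ^ 40 * (m0 + 1) ≤ q := by exact_mod_cast hq
  have h1 : (2 : ℝ) ^ s / 2 ^ τ ≤ 1 / 2 ^ 40 := by
    rw [div_le_div_iff₀ (by positivity) (by positivity), one_mul, ← pow_add]
    exact pow_le_pow_right₀ (by norm_num) h
  have hq0 : (0 : ℝ) ≤ q := Nat.cast_nonneg q
  have hm0 : (0 : ℝ) ≤ m0 := Nat.cast_nonneg m0
  have h2 : (q : ℝ) * (2 ^ s / 2 ^ τ) ≤ q * (1 / 2 ^ 40) := mul_le_mul_of_nonneg_left h1 hq0
  have h3 : (m0 : ℝ) ≤ q / 2 ^ 40 := by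
    rw [le_div_iff₀ (by positivity)]
    nlinarith
  calc (32 : ℝ) * (2 * m0 + q * (2 ^ s / 2 ^ τ)) ≤ 32 * (2 * (q / 2 ^ 40) + q * (1 / 2 ^ 40)) := by
        gcongr
    _ = q * (96 / 2 ^ 40) := by ring
    _ ≤ q * (1 / 2 ^ 27) := by
        apply mul_le_mul_of_nonneg_left _ hq0
        norm_num
    _ = q / 2 ^ 27 := by ring

/-- one function. -/
theorem rSLF_gen (hSLV : rSLV_stmt) {m0 q s σs : ℕ} {c : ℕ → DD} {z : ℝ} {X : ℕ → ℝ} {g : ℝ → ℝ}
    (hq : 2 ^ 40 * (m0 + 1) ≤ q) (hσ : s + 1 + 40 ≤ σs) (hS : SLV q c (s + 1) σs m0)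
    (hd : ∀ i < q, ∀ x, |ev (c i) x - x| ≤ 1 / 100) (hX : ∀ i < q, |X i - ev (c i) z| ≤ 1 / 2 ^ σs)
    (hg : PL (s + 1) 32 g) (hz : ∀ x, x ∉ Set.Ico (9 / 32 : ℝ) (23 / 32) → g x = 0) :
    |∑ i ∈ Finset.range q, g (X i) - ∑ i ∈ Finset.range q, g (ev (c i) z)| ≤ q / 2 ^ 27 := by
  by_cases h : z ∈ Set.Icc (1 / 6 : ℝ) (5 / 6)
  · have h1 := hSLV q m0 (s + 1) σs c g 32 (by norm_num) hS hg z h X hX
    rw [← Finset.sum_sub_distrib]
    exact (Finset.abs_sum_le_sum_abs _ _).trans (h1.trans (rSLF_num hq hσ))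
  · have h2 : (1 : ℝ) / 2 ^ σs ≤ 1 / 100 := by
      apply one_div_le_one_div_of_le (by norm_num)
      calc (100 : ℝ) ≤ 2 ^ 40 := by norm_num
        _ ≤ 2 ^ σs := pow_le_pow_right₀ (by norm_num) (by omega)
    have e1 : ∑ i ∈ Finset.range q, g (X i) = 0 := by
      refine Finset.sum_eq_zero fun i hi => hz _ fun hm => h ?_
      have hi' : i < q := Finset.mem_range.1 hi
      have a1 := abs_le.1 (hd i hi' z)
      have a2 := abs_le.1 ((hX i hi').trans h2)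
      obtain ⟨b1, b2⟩ := hm
      constructor <;> linarith
    have e2 : ∑ i ∈ Finset.range q, g (ev (c i) z) = 0 := by
      refine Finset.sum_eq_zero fun i hi => hz _ fun hm => h ?_
      have hi' : i < q := Finset.mem_range.1 hi
      have a1 := abs_le.1 (hd i hi' z)
      obtain ⟨b1, b2⟩ := hm
      constructor <;> linarith
    rw [e1, e2, sub_zero, abs_zero]
    positivity

theorem rSLF (hSLV : rSLV_stmt) (hPLF : rPLF_stmt) : rSLF_stmt := by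
  intro m0
  refine ⟨2 ^ 40 * (m0 + 1), fun q s0 hq hs0 K0 δ w0 a N S cm σ y hy hHY hw s hs hsS z X hX => ?_⟩
  have h320 : 320 ≤ s0 := by omega
  obtain ⟨hP, -⟩ := hPLF N s0 y hy (by omega)
  obtain ⟨-, -, hz, hp1, hp2, hp3⟩ := hP s hs
  obtain ⟨-, -, hz', -, -, -⟩ := hP (s + 1) (by omega)
  obtain ⟨hNI, hσ, hS, -⟩ := hHY.1 s hs hsS
  have hσ' : s + 1 + 40 ≤ σ s := by omega
  have hd : ∀ i < q, ∀ x, |ev (cm s i) x - x| ≤ 1 / 100 := fun i hi x => ((hNI i hi).2 x).trans hw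
  refine ⟨?_, ?_, ?_⟩
  · exact rSLF_gen hSLV hq hσ' hS hd hX hp1 fun x hx => (hz x hx).1
  · exact rSLF_gen hSLV hq hσ' hS hd hX hp2 fun x hx => (hz' x hx).1
  · exact rSLF_gen hSLV hq hσ' hS hd hX hp3 fun x hx => by rw [(hz x hx).2.1, mul_zero]

end Pool.Agent.helper90.DH
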